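import Pool.Agent.Q240.KT.Stm

set_option autoImplicit false

/-!
# Project KT (helper240), job RT4 (helper38): the second moment step
-/

namespace Pool.Agent.Q38.KT

open Finset Pool.Agent.H376R2.MR Pool.Agent.Q240.KS Pool.Agent.Q240.KT

/-- separated points in an interval -/
theorem sep_card (U : Finset ℝ) (δ x r : ℝ) (hδ : 0 < δ) (hr : 0 ≤ r)
    (hU : ∀ u ∈ U, |u - x| ≤ r) (hsep : ∀ u ∈ U, ∀ u' ∈ U, u ≠ u' → δ ≤ |u - u'|) :
    (U.card : ℝ) ≤ 1 + 2 * r / δ := by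
  have h1 : U.card ≤ (Icc (0 : ℤ) ⌊2 * r / δ⌋).card := by
    apply Finset.card_le_card_of_injOn (fun u => ⌊(u - (x - r)) / δ⌋)
    · intro u hu
      have h2 := abs_le.1 (hU u hu)
      simp only [coe_Icc, Set.mem_Icc]
      refine ⟨Int.floor_nonneg.2 (div_nonneg (by linarith) hδ.le), ?_⟩
      apply Int.floor_le_floor
      gcongr
      linarith
    · intro u hu u' hu' huu
      by_contra hne
      have h2 := hsep u hu u' hu' hne
      simp only at huu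
      have h3 := Int.abs_sub_lt_one_of_floor_eq_floor huu
      rw [← sub_div, abs_div, abs_of_pos hδ, div_lt_one hδ] at h3
      have h4 : u - (x - r) - (u' - (x - r)) = u - u' := by ring
      rw [h4] at h3
      linarith
  have h2 : 0 ≤ ⌊2 * r / δ⌋ := Int.floor_nonneg.2 (by positivity)
  rw [Int.card_Icc] at h1
  have h3 : ((⌊2 * r / δ⌋ + 1 - 0).toNat : ℝ) = (⌊2 * r / δ⌋ : ℝ) + 1 := by
    have h4 : ((⌊2 * r / δ⌋ + 1 - 0).toNat : ℤ) = ⌊2 * r / δ⌋ + 1 := by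
      rw [Int.toNat_of_nonneg (by omega)]
      ring
    exact_mod_cast h4
  calc (U.card : ℝ) ≤ ((⌊2 * r / δ⌋ + 1 - 0).toNat : ℝ) := by exact_mod_cast h1
    _ = (⌊2 * r / δ⌋ : ℝ) + 1 := h3
    _ ≤ 2 * r / δ + 1 := by gcongr; exact Int.floor_le _
    _ = 1 + 2 * r / δ := by ring

/-- the reduced quadruple -/
noncomputable def Ph (p : (ℝ × ℕ × ℕ) × (ℝ × ℕ × ℕ)) : (ℝ × ℝ) × ℕ × ℕ :=
  ((p.2.1, p.1.1), (p.1.2.1 * p.2.2.2 / Nat.gcd (p.1.2.1 * p.2.2.2) (p.1.2.2 * p.2.2.1),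
    p.1.2.2 * p.2.2.1 / Nat.gcd (p.1.2.1 * p.2.2.2) (p.1.2.2 * p.2.2.1)))

/-- the pairs of pairs -/
noncomputable def QQ (U : Finset ℝ) (K : ℕ) (τ H : ℝ) : Finset ((ℝ × ℕ × ℕ) × (ℝ × ℕ × ℕ)) :=
  ((U ×ˢ (Icc 1 ⌊H⌋₊ ×ˢ Icc 1 ⌊H⌋₊)) ×ˢ (U ×ˢ (Icc 1 ⌊H⌋₊ ×ˢ Icc 1 ⌊H⌋₊))).filter
    (fun p => |p.2.1 - p.1.1 - ((Real.log p.1.2.1 + Real.log p.2.2.2) -
      (Real.log p.1.2.2 + Real.log p.2.2.1))| ≤ 2 * τ / (K : ℝ))

/-- the condition of `PQ` -/
def CC (K : ℕ) (τ : ℝ) (u : ℝ) (q : ℝ × ℕ × ℕ) : Prop :=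
  Nat.Coprime q.2.1 q.2.2 ∧ |u - q.1 - (Real.log q.2.1 - Real.log q.2.2)| ≤ τ / (K : ℝ)

theorem PQ_eq (U : Finset ℝ) (K : ℕ) (τ H : ℝ) [∀ u q, Decidable (CC K τ u q)] :
    (PQ U K τ H : ℝ) = ∑ u ∈ U, ∑ q ∈ U ×ˢ (Icc 1 ⌊H⌋₊ ×ˢ Icc 1 ⌊H⌋₊),
      (if CC K τ u q then (1 : ℝ) else 0) := by
  unfold PQ
  rw [Finset.card_filter]
  push_cast
  rw [Finset.sum_product, Finset.sum_product]
  refine Finset.sum_congr rfl fun u _ => ?_
  rw [Finset.sum_product]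
  refine Finset.sum_congr rfl fun y _ => Finset.sum_congr rfl fun z _ => ?_
  by_cases h : CC K τ u (y, z)
  · exact (if_pos h).trans (if_pos h).symm
  · exact (if_neg h).trans (if_neg h).symm

/-- Cauchy-Schwarz and the count of `u` -/
theorem rt4_cs (U : Finset ℝ) (K : ℕ) (τ H : ℝ) (hK : 1 ≤ K) (hτ : 1 ≤ τ)
    (hsep : ∀ u ∈ U, ∀ u' ∈ U, u ≠ u' → 1 / (K : ℝ) ≤ |u - u'|) :
    (PQ U K τ H : ℝ) ^ 2 ≤ U.card * ((1 + 2 * τ) * (QQ U K τ H).card) := by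
  classical
  have hK0 : (0 : ℝ) < K := by exact_mod_cast hK
  rw [PQ_eq]
  refine (sq_sum_le_card_mul_sum_sq).trans ?_
  refine mul_le_mul_of_nonneg_left ?_ (Nat.cast_nonneg _)
  set R := U ×ˢ (Icc 1 ⌊H⌋₊ ×ˢ Icc 1 ⌊H⌋₊) with hR
  have e1 : ∀ u ∈ U, (∑ q ∈ R, (if CC K τ u q then (1 : ℝ) else 0)) ^ 2 =
      ∑ p ∈ R ×ˢ R, (if CC K τ u p.1 ∧ CC K τ u p.2 then (1 : ℝ) else 0) := by
    intro u _
    rw [sq, Finset.sum_mul_sum, ← Finset.sum_product']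
    refine Finset.sum_congr rfl fun p _ => ?_
    by_cases h1 : CC K τ u p.1 <;> by_cases h2 : CC K τ u p.2 <;> simp [h1, h2]
  rw [Finset.sum_congr rfl e1, Finset.sum_comm]
  have e2 : (1 + 2 * τ) * ((QQ U K τ H).card : ℝ) = ∑ p ∈ R ×ˢ R,
      (if |p.2.1 - p.1.1 - ((Real.log p.1.2.1 + Real.log p.2.2.2) -
      (Real.log p.1.2.2 + Real.log p.2.2.1))| ≤ 2 * τ / (K : ℝ) then 1 + 2 * τ else 0) := by
    unfold QQ
    rw [Finset.card_filter]
    push_cast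
    rw [Finset.mul_sum]
    refine Finset.sum_congr rfl fun p _ => ?_
    split_ifs <;> simp
  rw [e2]
  refine Finset.sum_le_sum fun p _ => ?_
  rw [← Finset.sum_filter, Finset.sum_const, nsmul_eq_mul, mul_one]
  split_ifs with hc
  · have h1 := sep_card (U.filter fun u => CC K τ u p.1 ∧ CC K τ u p.2) (1 / K)
      (p.1.1 + (Real.log p.1.2.1 - Real.log p.1.2.2)) (τ / K) (by positivity) (by positivity)
      (by
        intro u hu
        rw [Finset.mem_filter] at hu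
        have := hu.2.1.2
        rw [← sub_sub]
        exact this)
      (by
        intro u hu u' hu' hne
        exact hsep u (Finset.mem_filter.1 hu).1 u' (Finset.mem_filter.1 hu').1 hne)
    refine h1.trans (le_of_eq ?_)
    field_simp
  · have : (U.filter fun u => CC K τ u p.1 ∧ CC K τ u p.2) = ∅ := by
      rw [Finset.filter_eq_empty_iff]
      rintro u _ ⟨⟨-, h1⟩, ⟨-, h2⟩⟩
      apply hc
      have e3 : p.2.1 - p.1.1 - ((Real.log p.1.2.1 + Real.log p.2.2.2) -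
          (Real.log p.1.2.2 + Real.log p.2.2.1)) =
          (u - p.1.1 - (Real.log p.1.2.1 - Real.log p.1.2.2)) -
          (u - p.2.1 - (Real.log p.2.2.1 - Real.log p.2.2.2)) := by ring
      rw [e3]
      refine (abs_sub _ _).trans ?_
      calc _ ≤ τ / K + τ / K := add_le_add h1 h2
        _ = 2 * τ / K := by ring
    rw [this]
    simp

/-- the fibres of the reduction -/
theorem rt4_fib (U : Finset ℝ) (K : ℕ) (τ H D : ℝ) (hH : 1 ≤ H)
    (hD : ∀ n : ℕ, 1 ≤ n → (n : ℝ) ≤ H ^ 2 → (n.divisors.card : ℝ) ≤ D)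
    (p : (ℝ × ℝ) × ℕ × ℕ) (hp : p ∈ (QQ U K τ H).image Ph) :
    (((QQ U K τ H).filter (fun x => Ph x = p)).card : ℝ) ≤
      H ^ 2 / (max p.2.1 p.2.2 : ℕ) * D ^ 2 := by
  classical
  obtain ⟨⟨u1, u2⟩, a, b⟩ := p
  have hH0 : 0 ≤ H := by linarith
  have hD1 : 1 ≤ D := by
    have := hD 1 le_rfl (by push_cast; nlinarith)
    simpa using this
  -- basic facts on members
  have key : ∀ x ∈ (QQ U K τ H).filter (fun x => Ph x = ((u1, u2), a, b)),
      x.2.1 = u1 ∧ x.1.1 = u2 ∧ 1 ≤ x.1.2.1 ∧ 1 ≤ x.1.2.2 ∧ 1 ≤ x.2.2.1 ∧ 1 ≤ x.2.2.2 ∧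
      Nat.gcd (x.1.2.1 * x.2.2.2) (x.1.2.2 * x.2.2.1) * a = x.1.2.1 * x.2.2.2 ∧
      Nat.gcd (x.1.2.1 * x.2.2.2) (x.1.2.2 * x.2.2.1) * b = x.1.2.2 * x.2.2.1 ∧
      ((x.1.2.1 * x.2.2.2 : ℕ) : ℝ) ≤ H ^ 2 ∧ ((x.1.2.2 * x.2.2.1 : ℕ) : ℝ) ≤ H ^ 2 := by
    rintro ⟨⟨v, h1, h2⟩, ⟨v', h3, h4⟩⟩ hx
    simp only [QQ, Finset.mem_filter, Finset.mem_product, Finset.mem_Icc, Ph, Prod.mk.injEq] at hx
    obtain ⟨⟨⟨⟨-, ⟨a1, a2⟩, a3, a4⟩, ⟨-, ⟨a5, a6⟩, a7, a8⟩⟩, -⟩, ⟨b1, b2⟩, b3, b4⟩ := hx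
    have f1 : (h1 : ℝ) ≤ H := (Nat.cast_le.2 a2).trans (Nat.floor_le hH0)
    have f2 : (h2 : ℝ) ≤ H := (Nat.cast_le.2 a4).trans (Nat.floor_le hH0)
    have f3 : (h3 : ℝ) ≤ H := (Nat.cast_le.2 a6).trans (Nat.floor_le hH0)
    have f4 : (h4 : ℝ) ≤ H := (Nat.cast_le.2 a8).trans (Nat.floor_le hH0)
    refine ⟨b1, b2, a1, a3, a5, a7, ?_, ?_, ?_, ?_⟩
    · simp only
      rw [← b3]
      exact Nat.mul_div_cancel' (Nat.gcd_dvd_left _ _)
    · simp only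
      rw [← b4]
      exact Nat.mul_div_cancel' (Nat.gcd_dvd_right _ _)
    · push_cast
      rw [sq]
      gcongr
    · push_cast
      rw [sq]
      gcongr
  -- a, b are positive
  have hab : 1 ≤ a ∧ 1 ≤ b := by
    rw [Finset.mem_image] at hp
    obtain ⟨x, hx, hxp⟩ := hp
    obtain ⟨-, -, k1, k2, k3, k4, k5, k6, -, -⟩ := key x (Finset.mem_filter.2 ⟨hx, hxp⟩)
    constructor
    · rcases Nat.eq_zero_or_pos a with h | h
      · rw [h, mul_zero] at k5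
        have := Nat.mul_pos k1 k4
        omega
      · exact h
    · rcases Nat.eq_zero_or_pos b with h | h
      · rw [h, mul_zero] at k6
        have := Nat.mul_pos k2 k3
        omega
      · exact h
  have hq : (0 : ℝ) < (max a b : ℕ) := by
    have : 1 ≤ max a b := le_max_of_le_left hab.1
    exact_mod_cast this
  -- the target
  set T : Finset (Σ _ : ℕ, ℕ × ℕ) := (Icc 1 ⌊H ^ 2 / (max a b : ℕ)⌋₊).sigma
    (fun g => (g * a).divisors ×ˢ (g * b).divisors) with hT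
  have hcard : ((QQ U K τ H).filter (fun x => Ph x = ((u1, u2), a, b))).card ≤ T.card := by
    apply Finset.card_le_card_of_injOn
      (fun x => (⟨Nat.gcd (x.1.2.1 * x.2.2.2) (x.1.2.2 * x.2.2.1), (x.1.2.1, x.1.2.2)⟩ :
        Σ _ : ℕ, ℕ × ℕ))
    · intro x hx
      obtain ⟨-, -, k1, k2, k3, k4, k5, k6, k7, k8⟩ := key x hx
      have hg : 0 < Nat.gcd (x.1.2.1 * x.2.2.2) (x.1.2.2 * x.2.2.1) :=
        Nat.gcd_pos_of_pos_left _ (Nat.mul_pos k1 k4)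
      simp only [hT, Finset.coe_sigma, Set.mem_sigma_iff, Finset.mem_coe, Finset.mem_Icc,
        Finset.mem_product, Nat.mem_divisors]
      refine ⟨⟨hg, ?_⟩, ⟨?_, ?_⟩, ?_, ?_⟩
      · apply Nat.le_floor
        rw [le_div_iff₀ hq]
        rcases max_cases a b with ⟨h, -⟩ | ⟨h, -⟩
        · rw [h]
          calc _ = ((Nat.gcd (x.1.2.1 * x.2.2.2) (x.1.2.2 * x.2.2.1) * a : ℕ) : ℝ) := by push_cast; rfl
            _ ≤ H ^ 2 := by rw [k5]; exact k7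
        · rw [h]
          calc _ = ((Nat.gcd (x.1.2.1 * x.2.2.2) (x.1.2.2 * x.2.2.1) * b : ℕ) : ℝ) := by push_cast; rfl
            _ ≤ H ^ 2 := by rw [k6]; exact k8
      · rw [k5]
        exact Dvd.intro _ rfl
      · have := Nat.mul_pos hg hab.1
        omega
      · rw [k6]
        exact Dvd.intro _ rfl
      · have := Nat.mul_pos hg hab.2
        omega
    · rintro x hx y hy hxy
      obtain ⟨x1, x2, k1, k2, k3, k4, k5, k6, -, -⟩ := key x hx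
      obtain ⟨y1, y2, l1, l2, l3, l4, l5, l6, -, -⟩ := key y hy
      simp only [Sigma.mk.injEq, heq_eq_eq, Prod.mk.injEq] at hxy
      obtain ⟨c1, c2, c3⟩ := hxy
      rw [c1, l5, c2] at k5
      rw [c1, l6, c3] at k6
      have d4 : y.2.2.2 = x.2.2.2 := Nat.eq_of_mul_eq_mul_left l1 k5
      have d3 : y.2.2.1 = x.2.2.1 := Nat.eq_of_mul_eq_mul_left l2 k6
      refine Prod.ext (Prod.ext ?_ (Prod.ext c2 c3)) (Prod.ext ?_ (Prod.ext d3.symm d4.symm))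
      · rw [x2, y2]
      · rw [x1, y1]
  have hTc : (T.card : ℝ) ≤ ⌊H ^ 2 / (max a b : ℕ)⌋₊ * (D * D) := by
    rw [hT, Finset.card_sigma, Nat.cast_sum]
    calc ∑ g ∈ Icc 1 ⌊H ^ 2 / (max a b : ℕ)⌋₊, (((g * a).divisors ×ˢ (g * b).divisors).card : ℝ)
        ≤ ∑ _g ∈ Icc 1 ⌊H ^ 2 / (max a b : ℕ)⌋₊, D * D := by
          refine Finset.sum_le_sum fun g hg => ?_
          rw [Finset.mem_Icc] at hg
          have hgq : (g : ℝ) * (max a b : ℕ) ≤ H ^ 2 := by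
            have h1 : (g : ℝ) ≤ H ^ 2 / (max a b : ℕ) :=
              (Nat.cast_le.2 hg.2).trans (Nat.floor_le (by positivity))
            rwa [le_div_iff₀ hq] at h1
          rw [Finset.card_product]
          push_cast
          refine mul_le_mul (hD _ (Nat.mul_pos hg.1 hab.1) ?_) (hD _ (Nat.mul_pos hg.1 hab.2) ?_)
            (Nat.cast_nonneg _) (by linarith)
          · refine le_trans ?_ hgq
            push_cast
            gcongr
            exact_mod_cast le_max_left a b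
          · refine le_trans ?_ hgq
            push_cast
            gcongr
            exact_mod_cast le_max_right a b
      _ = ⌊H ^ 2 / (max a b : ℕ)⌋₊ * (D * D) := by
          rw [Finset.sum_const, Nat.card_Icc, nsmul_eq_mul]
          simp
  calc (((QQ U K τ H).filter (fun x => Ph x = ((u1, u2), a, b))).card : ℝ) ≤ T.card := by
        exact_mod_cast hcard
    _ ≤ ⌊H ^ 2 / (max a b : ℕ)⌋₊ * (D * D) := hTc
    _ ≤ H ^ 2 / (max a b : ℕ) * D ^ 2 := by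
        rw [← sq]
        gcongr
        exact Nat.floor_le (by positivity)

theorem rt4 : S_RT4 := by
  classical
  intro U K τ H D hK hτ hH hsep hD
  have hK0 : (0 : ℝ) < K := by exact_mod_cast hK
  have hH0 : 0 ≤ H := by linarith
  have hH2 : 1 ≤ H ^ 2 := by nlinarith
  refine (rt4_cs U K τ H hK hτ hsep).trans ?_
  have hmain : ((QQ U K τ H).card : ℝ) ≤ D ^ 2 *
      ∑ i ∈ range (Nat.log 2 ⌊H ^ 2⌋₊ + 1), 2 ^ (i + 1) * (PQ U K (2 * τ) (H ^ 2 / 2 ^ i) : ℝ) := by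
    set P := (QQ U K τ H).image Ph with hP
    have e1 : ((QQ U K τ H).card : ℝ) =
        ∑ p ∈ P, (((QQ U K τ H).filter (fun x => Ph x = p)).card : ℝ) := by
      rw [← Nat.cast_sum]
      congr 1
      exact Finset.card_eq_sum_card_image Ph _
    -- facts about members of `P`
    have hPm : ∀ p ∈ P, p.1.1 ∈ U ∧ p.1.2 ∈ U ∧ 1 ≤ p.2.1 ∧ 1 ≤ p.2.2 ∧
        ((max p.2.1 p.2.2 : ℕ) : ℝ) ≤ H ^ 2 ∧ Nat.Coprime p.2.1 p.2.2 ∧
        |p.1.1 - p.1.2 - (Real.log p.2.1 - Real.log p.2.2)| ≤ 2 * τ / K := by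
      intro p hp
      rw [hP, Finset.mem_image] at hp
      obtain ⟨⟨⟨v, h1, h2⟩, ⟨v', h3, h4⟩⟩, hx, rfl⟩ := hp
      simp only [QQ, Finset.mem_filter, Finset.mem_product, Finset.mem_Icc] at hx
      obtain ⟨⟨⟨c1, ⟨a1, a2⟩, a3, a4⟩, ⟨c2, ⟨a5, a6⟩, a7, a8⟩⟩, c3⟩ := hx
      have f1 : (h1 : ℝ) ≤ H := (Nat.cast_le.2 a2).trans (Nat.floor_le hH0)
      have f2 : (h2 : ℝ) ≤ H := (Nat.cast_le.2 a4).trans (Nat.floor_le hH0)
      have f3 : (h3 : ℝ) ≤ H := (Nat.cast_le.2 a6).trans (Nat.floor_le hH0)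
      have f4 : (h4 : ℝ) ≤ H := (Nat.cast_le.2 a8).trans (Nat.floor_le hH0)
      have p14 : 0 < h1 * h4 := Nat.mul_pos a1 a7
      have p23 : 0 < h2 * h3 := Nat.mul_pos a3 a5
      have hg : 0 < Nat.gcd (h1 * h4) (h2 * h3) := Nat.gcd_pos_of_pos_left _ p14
      simp only [Ph]
      have i1 : 1 ≤ h1 * h4 / Nat.gcd (h1 * h4) (h2 * h3) :=
        Nat.div_pos (Nat.le_of_dvd p14 (Nat.gcd_dvd_left _ _)) hg
      have i2 : 1 ≤ h2 * h3 / Nat.gcd (h1 * h4) (h2 * h3) :=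
        Nat.div_pos (Nat.le_of_dvd p23 (Nat.gcd_dvd_right _ _)) hg
      refine ⟨c2, c1, i1, i2, ?_, ?_, ?_⟩
      · have j1 : ((h1 * h4 / Nat.gcd (h1 * h4) (h2 * h3) : ℕ) : ℝ) ≤ H ^ 2 := by
          calc ((h1 * h4 / Nat.gcd (h1 * h4) (h2 * h3) : ℕ) : ℝ) ≤ ((h1 * h4 : ℕ) : ℝ) := by
                exact_mod_cast Nat.div_le_self _ _
            _ ≤ H ^ 2 := by
                push_cast
                rw [sq]
                gcongr
        have j2 : ((h2 * h3 / Nat.gcd (h1 * h4) (h2 * h3) : ℕ) : ℝ) ≤ H ^ 2 := by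
          calc ((h2 * h3 / Nat.gcd (h1 * h4) (h2 * h3) : ℕ) : ℝ) ≤ ((h2 * h3 : ℕ) : ℝ) := by
                exact_mod_cast Nat.div_le_self _ _
            _ ≤ H ^ 2 := by
                push_cast
                rw [sq]
                gcongr
        rw [Nat.cast_max]
        exact max_le j1 j2
      · exact Nat.coprime_div_gcd_div_gcd hg
      · have l1 : Real.log ((h1 * h4 / Nat.gcd (h1 * h4) (h2 * h3) : ℕ) : ℝ) =
            Real.log h1 + Real.log h4 - Real.log (Nat.gcd (h1 * h4) (h2 * h3) : ℕ) := by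
          rw [Nat.cast_div (Nat.gcd_dvd_left _ _) (by exact_mod_cast hg.ne'),
            Real.log_div (by exact_mod_cast p14.ne') (by exact_mod_cast hg.ne'), Nat.cast_mul,
            Real.log_mul (by exact_mod_cast (by omega : h1 ≠ 0))
              (by exact_mod_cast (by omega : h4 ≠ 0))]
        have l2 : Real.log ((h2 * h3 / Nat.gcd (h1 * h4) (h2 * h3) : ℕ) : ℝ) =
            Real.log h2 + Real.log h3 - Real.log (Nat.gcd (h1 * h4) (h2 * h3) : ℕ) := by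
          rw [Nat.cast_div (Nat.gcd_dvd_right _ _) (by exact_mod_cast hg.ne'),
            Real.log_div (by exact_mod_cast p23.ne') (by exact_mod_cast hg.ne'), Nat.cast_mul,
            Real.log_mul (by exact_mod_cast (by omega : h2 ≠ 0))
              (by exact_mod_cast (by omega : h3 ≠ 0))]
        rw [l1, l2]
        convert c3 using 3
        ring
    -- the dyadic step
    have hdy : ∀ p ∈ P, H ^ 2 / (max p.2.1 p.2.2 : ℕ) ≤
        ∑ i ∈ range (Nat.log 2 ⌊H ^ 2⌋₊ + 1),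
          (if ((max p.2.1 p.2.2 : ℕ) : ℝ) ≤ H ^ 2 / 2 ^ i then (2 : ℝ) ^ (i + 1) else 0) := by
      intro p hp
      obtain ⟨-, -, k1, k2, k3, -, -⟩ := hPm p hp
      set q : ℕ := max p.2.1 p.2.2 with hq
      have hq1 : 1 ≤ q := le_max_of_le_left k1
      have hq0 : (0 : ℝ) < q := by exact_mod_cast hq1
      set i : ℕ := Nat.log 2 ⌊H ^ 2 / q⌋₊ with hi
      have hx1 : 1 ≤ H ^ 2 / q := by rwa [le_div_iff₀ hq0, one_mul]
      have hfl : 1 ≤ ⌊H ^ 2 / q⌋₊ := Nat.le_floor (by exact_mod_cast hx1)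
      have hlo : (2 : ℝ) ^ i ≤ H ^ 2 / q := by
        have h1 : 2 ^ i ≤ ⌊H ^ 2 / q⌋₊ := Nat.pow_log_le_self 2 (by omega)
        have h2 : ((2 ^ i : ℕ) : ℝ) ≤ (⌊H ^ 2 / q⌋₊ : ℝ) := by exact_mod_cast h1
        push_cast at h2
        exact h2.trans (Nat.floor_le (by positivity))
      have hhi : H ^ 2 / q ≤ (2 : ℝ) ^ (i + 1) := by
        have h1 : ⌊H ^ 2 / q⌋₊ < 2 ^ (i + 1) := Nat.lt_pow_succ_log_self one_lt_two _
        have h2 : H ^ 2 / q < (⌊H ^ 2 / q⌋₊ : ℝ) + 1 := Nat.lt_floor_add_one _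
        have h3 : ((⌊H ^ 2 / q⌋₊ + 1 : ℕ) : ℝ) ≤ ((2 ^ (i + 1) : ℕ) : ℝ) := by exact_mod_cast h1
        push_cast at h3
        linarith
      have hir : i ∈ range (Nat.log 2 ⌊H ^ 2⌋₊ + 1) := by
        rw [Finset.mem_range, Nat.lt_succ_iff, hi]
        apply Nat.log_mono_right
        apply Nat.floor_le_floor
        rw [div_le_iff₀ hq0]
        have : (1 : ℝ) ≤ q := by exact_mod_cast hq1
        nlinarith
      have hcond : ((q : ℕ) : ℝ) ≤ H ^ 2 / 2 ^ i := by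
        rw [le_div_iff₀ (by positivity), mul_comm]
        rwa [le_div_iff₀ hq0] at hlo
      refine le_trans ?_ (Finset.single_le_sum (f := fun i => if ((q : ℕ) : ℝ) ≤ H ^ 2 / 2 ^ i
        then (2 : ℝ) ^ (i + 1) else 0) (fun j _ => by split_ifs <;> positivity) hir)
      rw [if_pos hcond]
      exact hhi
    have hD0 : 0 ≤ D ^ 2 := sq_nonneg D
    calc ((QQ U K τ H).card : ℝ)
        = ∑ p ∈ P, (((QQ U K τ H).filter (fun x => Ph x = p)).card : ℝ) := e1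
      _ ≤ ∑ p ∈ P, H ^ 2 / (max p.2.1 p.2.2 : ℕ) * D ^ 2 :=
          Finset.sum_le_sum fun p hp => rt4_fib U K τ H D hH hD p hp
      _ = D ^ 2 * ∑ p ∈ P, H ^ 2 / (max p.2.1 p.2.2 : ℕ) := by
          rw [← Finset.sum_mul, mul_comm]
      _ ≤ D ^ 2 * ∑ p ∈ P, ∑ i ∈ range (Nat.log 2 ⌊H ^ 2⌋₊ + 1),
          (if ((max p.2.1 p.2.2 : ℕ) : ℝ) ≤ H ^ 2 / 2 ^ i then (2 : ℝ) ^ (i + 1) else 0) :=
          mul_le_mul_of_nonneg_left (Finset.sum_le_sum hdy) hD0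
      _ = D ^ 2 * ∑ i ∈ range (Nat.log 2 ⌊H ^ 2⌋₊ + 1), ∑ p ∈ P,
          (if ((max p.2.1 p.2.2 : ℕ) : ℝ) ≤ H ^ 2 / 2 ^ i then (2 : ℝ) ^ (i + 1) else 0) := by
          rw [Finset.sum_comm]
      _ ≤ _ := by
          refine mul_le_mul_of_nonneg_left (Finset.sum_le_sum fun i _ => ?_) hD0
          rw [← Finset.sum_filter, Finset.sum_const, nsmul_eq_mul, mul_comm]
          refine mul_le_mul_of_nonneg_left ?_ (by positivity)
          unfold PQ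
          refine Nat.cast_le.2 (Finset.card_le_card ?_)
          intro p hp
          rw [Finset.mem_filter] at hp
          obtain ⟨k0, k0', k1, k2, -, k4, k5⟩ := hPm p hp.1
          have hx0 : 0 ≤ H ^ 2 / 2 ^ i := by positivity
          have m1 : p.2.1 ≤ ⌊H ^ 2 / 2 ^ i⌋₊ := by
            apply Nat.le_floor
            refine le_trans ?_ hp.2
            exact_mod_cast le_max_left _ _
          have m2 : p.2.2 ≤ ⌊H ^ 2 / 2 ^ i⌋₊ := by
            apply Nat.le_floor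
            refine le_trans ?_ hp.2
            exact_mod_cast le_max_right _ _
          simp only [Finset.mem_filter, Finset.mem_product, Finset.mem_Icc]
          exact ⟨⟨⟨k0, k0'⟩, ⟨k1, m1⟩, k2, m2⟩, k4, k5⟩
  calc (U.card : ℝ) * ((1 + 2 * τ) * (QQ U K τ H).card)
      = U.card * (1 + 2 * τ) * (QQ U K τ H).card := by ring
    _ ≤ U.card * (1 + 2 * τ) * (D ^ 2 *
      ∑ i ∈ range (Nat.log 2 ⌊H ^ 2⌋₊ + 1), 2 ^ (i + 1) * (PQ U K (2 * τ) (H ^ 2 / 2 ^ i) : ℝ)) := by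
        gcongr
    _ = _ := by ring

end Pool.Agent.Q38.KT
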