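import Pool.Agent.Q38.KT.RT5a

set_option autoImplicit false

/-!
# Project KT (helper240), job RT5 (helper38): the final form of the recursion
-/

namespace Pool.Agent.Q38.KT

open Finset Pool.Agent.H376R2.MR Pool.Agent.Q240.KS Pool.Agent.Q240.KT

theorem rt5 (h3 : S_RT3) (h4 : S_RT4) : S_RT5 := by
  intro ε hε
  -- the parameters
  obtain ⟨J, hJ⟩ : ∃ J : ℕ, (1 / 2 : ℝ) ^ J ≤ ε / 4 := by
    obtain ⟨J, hJ⟩ := exists_pow_lt_of_lt_one (show (0 : ℝ) < ε / 4 by positivity)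
      (show (1 / 2 : ℝ) < 1 by norm_num)
    exact ⟨J, hJ.le⟩
  set e1 : ℝ := ε / 100 with he1
  have he10 : 0 < e1 := by positivity
  obtain ⟨Cd, hCd0, hCd⟩ := Pool.Agent.Helper112.divisor_bound e1 he10
  set C1 : ℝ := max Cd 1 with hC1
  have hC11 : 1 ≤ C1 := le_max_right _ _
  set Cl : ℝ := 2 / e1 + 1 with hCl
  have hCl1 : 1 ≤ Cl := by
    have : 0 < 2 / e1 := by positivity
    rw [hCl]
    linarith
  -- the constant
  set C0 : ℝ := 4 * (120 * 4 ^ J * C1 ^ 2 * Cl) ^ 2 * (6 * 2 ^ J) with hC0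
  have h2J : (1 : ℝ) ≤ 2 ^ J := one_le_pow₀ (by norm_num)
  have h4J : (1 : ℝ) ≤ 4 ^ J := one_le_pow₀ (by norm_num)
  have hC01 : 3 ≤ C0 := by
    have k1 : (1 : ℝ) ≤ 120 * 4 ^ J * C1 ^ 2 * Cl := by
      have : (1 : ℝ) ≤ C1 ^ 2 := one_le_pow₀ hC11
      calc (1 : ℝ) ≤ 120 * 1 * 1 * 1 := by norm_num
        _ ≤ 120 * 4 ^ J * C1 ^ 2 * Cl := by gcongr
    have k2 : (1 : ℝ) ≤ (120 * 4 ^ J * C1 ^ 2 * Cl) ^ 2 := one_le_pow₀ k1
    rw [hC0]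
    calc (3 : ℝ) ≤ 4 * 1 * (6 * 1) := by norm_num
      _ ≤ _ := by gcongr
  refine ⟨C0, by linarith, ?_⟩
  intro U v K hK hU hsep H hH
  have hK1 : (1 : ℝ) ≤ K := by exact_mod_cast hK
  have hK0 : (0 : ℝ) < K := by linarith
  have hKe : 1 ≤ (K : ℝ) ^ ε := Real.one_le_rpow hK1 hε.le
  have hKe1 : 1 ≤ (K : ℝ) ^ e1 := Real.one_le_rpow hK1 he10.le
  have hH0 : 0 < H := by linarith
  set X : ℝ := (U.card : ℝ) ^ (7 / 4 : ℝ) * (K : ℝ) ^ (-(1 / 4) : ℝ) with hX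
  have hX0 : 0 ≤ X := by positivity
  -- large `H`
  rcases lt_or_ge (K : ℝ) (H ^ 2) with hlarge | hsmall
  · have h5 := h3 U K 1 H hK zero_le_one hH
    have h6 : (1 : ℝ) + 2 * 1 * H ^ 2 / K ≤ 3 * H ^ 2 / K := by
      have : 1 ≤ H ^ 2 / K := by
        rw [le_div_iff₀ hK0]
        linarith
      calc (1 : ℝ) + 2 * 1 * H ^ 2 / K ≤ H ^ 2 / K + 2 * 1 * H ^ 2 / K := by gcongr
        _ = _ := by ring
    calc (PQ U K 1 H : ℝ) ≤ (U.card : ℝ) ^ 2 * (1 + 2 * 1 * H ^ 2 / K) := h5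
      _ ≤ (U.card : ℝ) ^ 2 * (3 * H ^ 2 / K) := by gcongr
      _ = 3 * 1 * ((U.card : ℝ) ^ 2 * H ^ 2 / K + 0) := by ring
      _ ≤ _ := by
          gcongr
          positivity
  -- no points
  rcases Nat.eq_zero_or_pos U.card with hU0 | hUpos
  · have h5 := h3 U K 1 H hK zero_le_one hH
    rw [hU0] at h5
    have h6 : (((0 : ℕ) : ℝ)) ^ 2 * (1 + 2 * 1 * H ^ 2 / K) = 0 := by simp
    rw [h6] at h5
    refine h5.trans ?_
    positivity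
  -- the recursion
  have hn1 : (1 : ℝ) ≤ U.card := by exact_mod_cast hUpos
  have hn0 : (0 : ℝ) < U.card := by linarith
  have hn2 : (U.card : ℝ) ≤ 2 * K := by
    have := sep_card U (1 / K) (v + 1 / 2) (1 / 2) (by positivity) (by norm_num)
      (fun u hu => abs_le.2 ⟨by linarith [(hU u hu).1], by linarith [(hU u hu).2]⟩) hsep
    have e : 1 + 2 * (1 / 2) / (1 / (K : ℝ)) = 1 + K := by field_simp
    rw [e] at this
    linarith
  set a : ℝ := (U.card : ℝ) ^ (1 / 4 : ℝ) with ha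
  set b : ℝ := (K : ℝ) ^ (1 / 4 : ℝ) with hb
  have ha1 : 1 ≤ a := Real.one_le_rpow hn1 (by norm_num)
  have hb1 : 1 ≤ b := Real.one_le_rpow hK1 (by norm_num)
  have ha4 : (U.card : ℝ) = a ^ 4 := by
    rw [ha, ← Real.rpow_natCast, ← Real.rpow_mul hn0.le]
    norm_num
  have hb4 : (K : ℝ) = b ^ 4 := by
    rw [hb, ← Real.rpow_natCast, ← Real.rpow_mul hK0.le]
    norm_num
  have hXab : X = a ^ 7 / b := by
    have q1 : (U.card : ℝ) ^ (7 / 4 : ℝ) = a ^ 7 := by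
      rw [ha, ← Real.rpow_natCast, ← Real.rpow_mul hn0.le]
      norm_num
    have q2 : (K : ℝ) ^ (-(1 / 4) : ℝ) = b⁻¹ := by
      rw [hb, Real.rpow_neg hK0.le]
    rw [hX, q1, q2, div_eq_mul_inv]
  -- divisors and logarithms
  have hD : ∀ m : ℕ, 1 ≤ m → (m : ℝ) ≤ K → (m.divisors.card : ℝ) ≤ C1 * (K : ℝ) ^ e1 := by
    intro m hm hmK
    calc (m.divisors.card : ℝ) ≤ Cd * (m : ℝ) ^ e1 := hCd m hm
      _ ≤ C1 * (K : ℝ) ^ e1 := by
          gcongr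
          exact le_max_left _ _
  have hl : ∀ m : ℕ, (m : ℝ) ≤ K → (Nat.log 2 m : ℝ) + 1 ≤ Cl * (K : ℝ) ^ e1 := by
    intro m hmK
    have k1 : (Nat.log 2 m : ℝ) ≤ 2 / e1 * (K : ℝ) ^ e1 := by
      rcases Nat.eq_zero_or_pos m with h | h
      · rw [h]
        simp only [Nat.log_zero_right, CharP.cast_eq_zero]
        positivity
      · have g1 : (2 : ℝ) ^ (Nat.log 2 m) ≤ m := by
          exact_mod_cast Nat.pow_log_le_self 2 (by omega)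
        have g2 : (Nat.log 2 m : ℝ) * Real.log 2 ≤ Real.log K := by
          rw [← Real.log_pow]
          exact Real.log_le_log (by positivity) (g1.trans hmK)
        have g3 : Real.log K ≤ (K : ℝ) ^ e1 / e1 := Real.log_le_rpow_div hK0.le he10
        have g4 : (1 / 2 : ℝ) ≤ Real.log 2 := by
          have := Real.log_two_gt_d9
          linarith
        have g5 : (Nat.log 2 m : ℝ) * (1 / 2) ≤ (Nat.log 2 m : ℝ) * Real.log 2 := by gcongr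
        have g6 : 2 / e1 * (K : ℝ) ^ e1 = 2 * ((K : ℝ) ^ e1 / e1) := by ring
        rw [g6]
        linarith
    rw [hCl]
    calc (Nat.log 2 m : ℝ) + 1 ≤ 2 / e1 * (K : ℝ) ^ e1 + (K : ℝ) ^ e1 := by gcongr
      _ = _ := by ring
  have hrec := rt5_rec h3 h4 U K J (C1 * (K : ℝ) ^ e1) (Cl * (K : ℝ) ^ e1) a b hK ha1 hb1 ha4 hb4
    hsep (by nlinarith) hD (by nlinarith) hl J le_rfl H hH hsmall
  rw [Nat.sub_self, pow_zero] at hrec
  rw [← hXab, ← ha4] at hrec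
  -- the powers of `K`
  have p1 : (3 * 2 ^ J * (U.card : ℝ)) ^ ((1 / 2 : ℝ) ^ J) ≤ 6 * 2 ^ J * (K : ℝ) ^ (ε / 4) := by
    have q1 : 3 * 2 ^ J * (U.card : ℝ) ≤ (6 * 2 ^ J) * K := by
      calc 3 * 2 ^ J * (U.card : ℝ) ≤ 3 * 2 ^ J * (2 * K) := by gcongr
        _ = _ := by ring
    calc (3 * 2 ^ J * (U.card : ℝ)) ^ ((1 / 2 : ℝ) ^ J)
        ≤ ((6 * 2 ^ J) * K) ^ ((1 / 2 : ℝ) ^ J) :=
          Real.rpow_le_rpow (mul_nonneg (by positivity) (Nat.cast_nonneg _)) q1 (by positivity)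
      _ = (6 * 2 ^ J) ^ ((1 / 2 : ℝ) ^ J) * (K : ℝ) ^ ((1 / 2 : ℝ) ^ J) :=
          Real.mul_rpow (by positivity) hK0.le
      _ ≤ (6 * 2 ^ J) ^ (1 : ℝ) * (K : ℝ) ^ (ε / 4) := by
          have q2 : (1 : ℝ) ≤ 6 * 2 ^ J := by linarith
          have q3 : (1 / 2 : ℝ) ^ J ≤ 1 := pow_le_one₀ (by norm_num) (by norm_num)
          gcongr
      _ = _ := by rw [Real.rpow_one]
  have p2 : (120 * 4 ^ J * (C1 * (K : ℝ) ^ e1) ^ 2 * (Cl * (K : ℝ) ^ e1)) ^ 2 =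
      (120 * 4 ^ J * C1 ^ 2 * Cl) ^ 2 * (K : ℝ) ^ (6 * e1) := by
    have q1 : (K : ℝ) ^ (6 * e1) = ((K : ℝ) ^ e1) ^ 6 := by
      rw [← Real.rpow_natCast, ← Real.rpow_mul hK0.le]
      congr 1
      push_cast
      ring
    rw [q1]
    ring
  have p3 : (K : ℝ) ^ (6 * e1) * (K : ℝ) ^ (ε / 4) ≤ (K : ℝ) ^ ε := by
    rw [← Real.rpow_add hK0]
    apply Real.rpow_le_rpow_of_exponent_le hK1
    rw [he1]
    linarith
  refine hrec.trans ?_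
  rw [p2]
  have s0 : 0 ≤ (U.card : ℝ) + X := add_nonneg (Nat.cast_nonneg _) hX0
  have s1 : 0 ≤ ((U.card : ℝ) + X) * H := mul_nonneg s0 hH0.le
  have s2 : 0 ≤ (U.card : ℝ) ^ 2 * H ^ 2 / K :=
    div_nonneg (mul_nonneg (sq_nonneg _) (sq_nonneg _)) hK0.le
  have s3 : 0 ≤ 4 * ((120 * 4 ^ J * C1 ^ 2 * Cl) ^ 2 * (K : ℝ) ^ (6 * e1)) *
      ((U.card : ℝ) + X) := mul_nonneg (by positivity) s0
  calc 4 * ((120 * 4 ^ J * C1 ^ 2 * Cl) ^ 2 * (K : ℝ) ^ (6 * e1)) * ((U.card : ℝ) + X) *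
        (3 * 2 ^ J * (U.card : ℝ)) ^ ((1 / 2 : ℝ) ^ J) * H
      ≤ 4 * ((120 * 4 ^ J * C1 ^ 2 * Cl) ^ 2 * (K : ℝ) ^ (6 * e1)) * ((U.card : ℝ) + X) *
        (6 * 2 ^ J * (K : ℝ) ^ (ε / 4)) * H :=
        mul_le_mul_of_nonneg_right (mul_le_mul_of_nonneg_left p1 s3) hH0.le
    _ = C0 * ((K : ℝ) ^ (6 * e1) * (K : ℝ) ^ (ε / 4)) * (((U.card : ℝ) + X) * H) := by
        rw [hC0]
        ring
    _ ≤ C0 * (K : ℝ) ^ ε * ((U.card : ℝ) ^ 2 * H ^ 2 / K + ((U.card : ℝ) + X) * H) :=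
        mul_le_mul (mul_le_mul_of_nonneg_left p3 (by linarith)) (by linarith) s1
          (mul_nonneg (by linarith) (by linarith))

end Pool.Agent.Q38.KT
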