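import Pool.Agent.Q38.KT.RT4
import Pool.Agent.Helper112.Arith

set_option autoImplicit false

/-!
# Project KT (helper240), job RT5 (helper38): closing the recursion
-/

namespace Pool.Agent.Q38.KT

open Finset Pool.Agent.H376R2.MR Pool.Agent.Q240.KS Pool.Agent.Q240.KT

/-- the recursion; `n = a^4`, `K = b^4`, `X = a^7/b` -/
theorem rt5_rec (h3 : S_RT3) (h4 : S_RT4) (U : Finset ℝ) (K : ℕ) (J : ℕ) (D l a b : ℝ)
    (hK : 1 ≤ K) (ha : 1 ≤ a) (hb : 1 ≤ b) (hn : (U.card : ℝ) = a ^ 4) (hKb : (K : ℝ) = b ^ 4)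
    (hsep : ∀ u ∈ U, ∀ u' ∈ U, u ≠ u' → 1 / (K : ℝ) ≤ |u - u'|) (hD1 : 1 ≤ D)
    (hD : ∀ m : ℕ, 1 ≤ m → (m : ℝ) ≤ K → (m.divisors.card : ℝ) ≤ D) (hl1 : 1 ≤ l)
    (hl : ∀ m : ℕ, (m : ℝ) ≤ K → (Nat.log 2 m : ℝ) + 1 ≤ l) :
    ∀ j : ℕ, j ≤ J → ∀ H : ℝ, 1 ≤ H → H ^ 2 ≤ K →
      (PQ U K (2 ^ (J - j)) H : ℝ) ≤
        (4 * (120 * 4 ^ J * D ^ 2 * l) ^ 2 * (a ^ 4 + a ^ 7 / b)) *
          (3 * 2 ^ J * a ^ 4) ^ ((1 / 2 : ℝ) ^ j) * H := by
  have hK0 : (0 : ℝ) < K := by exact_mod_cast hK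
  have ha0 : 0 < a := by linarith
  have hb0 : 0 < b := by linarith
  have h2J : (1 : ℝ) ≤ 2 ^ J := one_le_pow₀ (by norm_num)
  have h4J : (1 : ℝ) ≤ 4 ^ J := one_le_pow₀ (by norm_num)
  have h42 : (4 : ℝ) ^ J = 2 ^ J * 2 ^ J := by
    rw [← mul_pow]
    norm_num
  have ha4 : 1 ≤ a ^ 4 := one_le_pow₀ ha
  set A : ℝ := 120 * 4 ^ J * D ^ 2 * l with hA
  set X : ℝ := a ^ 7 / b with hX
  have hX0 : 0 ≤ X := by positivity
  have hD2 : 1 ≤ D ^ 2 := one_le_pow₀ hD1
  have hA1 : 120 * 4 ^ J ≤ A := by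
    rw [hA]
    calc (120 * 4 ^ J : ℝ) = 120 * 4 ^ J * 1 * 1 := by ring
      _ ≤ 120 * 4 ^ J * D ^ 2 * l := by gcongr
  have hA2 : 1 ≤ A := by linarith
  have hA2J : 3 * 2 ^ J ≤ A := by
    refine le_trans ?_ hA1
    rw [h42]
    nlinarith
  set W : ℝ := 4 * A ^ 2 * (a ^ 4 + X) with hW
  set L : ℝ := 3 * 2 ^ J * a ^ 4 with hL
  have hL1 : 1 ≤ L := by
    rw [hL]
    nlinarith
  have hAsq : A ≤ A ^ 2 := by nlinarith
  have hWn : 4 * A ^ 2 * a ^ 4 ≤ W := by
    rw [hW]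
    nlinarith [mul_nonneg (by positivity : (0 : ℝ) ≤ 4 * A ^ 2) hX0]
  have hWX : 4 * A ^ 2 * X ≤ W := by
    rw [hW]
    have : 0 ≤ 4 * A ^ 2 * a ^ 4 := by positivity
    nlinarith
  have hW0 : 0 < W := lt_of_lt_of_le (by positivity) hWn
  have hWn' : a ^ 4 ≤ W := by
    refine le_trans ?_ hWn
    have : 1 ≤ 4 * A ^ 2 := by nlinarith
    nlinarith
  have hW3 : 3 * 2 ^ J * X ≤ W := by
    refine le_trans ?_ hWX
    apply mul_le_mul_of_nonneg_right _ hX0
    nlinarith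
  intro j
  induction j with
  | zero =>
    intro _ H hH hHK
    have h5 := h3 U K (2 ^ J) H hK (by positivity) hH
    rw [pow_zero, Real.rpow_one, Nat.sub_zero]
    refine h5.trans ?_
    have h6 : 2 * 2 ^ J * H ^ 2 / K ≤ 2 * 2 ^ J := by
      rw [div_le_iff₀ hK0]
      gcongr
    calc (U.card : ℝ) ^ 2 * (1 + 2 * 2 ^ J * H ^ 2 / K) ≤ (a ^ 4) ^ 2 * (3 * 2 ^ J) := by
          rw [hn]
          gcongr
          linarith
      _ = a ^ 4 * L := by rw [hL]; ring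
      _ ≤ W * L := by gcongr
      _ ≤ W * L * H := le_mul_of_one_le_right (by positivity) hH
  | succ j ih =>
    intro hj H hH hHK
    have ih' := ih (by omega)
    have hH0 : 0 < H := by linarith
    set τ : ℝ := 2 ^ (J - (j + 1)) with hτ
    have hττ : (2 : ℝ) ^ (J - j) = 2 * τ := by
      rw [hτ, show J - j = (J - (j + 1)) + 1 by omega, pow_succ]
      ring
    have hτ1 : 1 ≤ τ := one_le_pow₀ (by norm_num)
    have hτJ : 2 * τ ≤ 2 ^ J := by
      rw [← hττ]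
      exact pow_le_pow_right₀ (by norm_num) (by omega)
    rw [hττ] at ih'
    set lam : ℝ := L ^ ((1 / 2 : ℝ) ^ j) with hlam
    have hlam1 : 1 ≤ lam := Real.one_le_rpow hL1 (by positivity)
    have hlamsq : (L ^ ((1 / 2 : ℝ) ^ (j + 1))) ^ 2 = lam := by
      rw [← Real.rpow_natCast, ← Real.rpow_mul (by linarith), hlam]
      congr 1
      rw [pow_succ]
      push_cast
      ring
    have hlam' : 1 ≤ L ^ ((1 / 2 : ℝ) ^ (j + 1)) := Real.one_le_rpow hL1 (by positivity)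
    have hb4 : b ^ 4 = K := hKb.symm
    rcases le_total (a * b) H with hc | hc
    · -- (a)
      have h5 := h3 U K τ H hK (by linarith) hH
      refine h5.trans ?_
      have h6 : 2 * τ * H ^ 2 / K ≤ 2 * τ := by
        rw [div_le_iff₀ hK0]
        gcongr
      have h7 : (a ^ 4) ^ 2 ≤ X * H := by
        calc (a ^ 4) ^ 2 = X * (a * b) := by
              rw [hX]
              field_simp
          _ ≤ X * H := by gcongr
      calc (U.card : ℝ) ^ 2 * (1 + 2 * τ * H ^ 2 / K) ≤ (a ^ 4) ^ 2 * (3 * 2 ^ J) := by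
            rw [hn]
            gcongr
            linarith
        _ ≤ X * H * (3 * 2 ^ J) := by gcongr
        _ = 3 * 2 ^ J * X * H := by ring
        _ ≤ W * H := by gcongr
        _ = W * 1 * H := by ring
        _ ≤ _ := by gcongr
    · -- (b)
      have h5 := h4 U K τ H D hK hτ1 hH hsep (fun m hm1 hm2 => hD m hm1 (hm2.trans hHK))
      have hH1 : 1 ≤ H ^ 2 := one_le_pow₀ hH
      have hfl : (⌊H ^ 2⌋₊ : ℝ) ≤ K := (Nat.floor_le (by positivity)).trans hHK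
      have hN := hl ⌊H ^ 2⌋₊ hfl
      set N : ℕ := Nat.log 2 ⌊H ^ 2⌋₊ with hNd
      -- every term
      have hterm : ∀ i ∈ range (N + 1), 2 ^ (i + 1) * (PQ U K (2 * τ) (H ^ 2 / 2 ^ i) : ℝ) ≤
          10 * τ * (a ^ 4) ^ 2 * H ^ 4 / K * (1 / 2) ^ i + 2 * W * lam * H ^ 2 := by
        intro i hi
        rw [Finset.mem_range, Nat.lt_succ_iff] at hi
        have h2i : (0 : ℝ) < 2 ^ i := by positivity
        have hi2 : (2 : ℝ) ^ i ≤ H ^ 2 := by
          have h6 : 2 ^ N ≤ ⌊H ^ 2⌋₊ := Nat.pow_log_le_self 2 (by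
            have : 1 ≤ ⌊H ^ 2⌋₊ := Nat.le_floor (by exact_mod_cast hH1)
            omega)
          have h7 : ((2 ^ N : ℕ) : ℝ) ≤ (⌊H ^ 2⌋₊ : ℝ) := by exact_mod_cast h6
          push_cast at h7
          calc (2 : ℝ) ^ i ≤ 2 ^ N := pow_le_pow_right₀ (by norm_num) hi
            _ ≤ _ := h7.trans (Nat.floor_le (by positivity))
        have hH'' : 1 ≤ H ^ 2 / 2 ^ i := by rwa [le_div_iff₀ h2i, one_mul]
        have t1 : 0 ≤ 10 * τ * (a ^ 4) ^ 2 * H ^ 4 / K * (1 / 2) ^ i := by positivity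
        have t2 : 0 ≤ 2 * W * lam * H ^ 2 := by positivity
        rcases le_total (K : ℝ) ((H ^ 2 / 2 ^ i) ^ 2) with hk | hk
        · have h6 := h3 U K (2 * τ) (H ^ 2 / 2 ^ i) hK (by positivity) hH''
          have h7 : (1 : ℝ) + 2 * (2 * τ) * (H ^ 2 / 2 ^ i) ^ 2 / K ≤
              5 * τ * (H ^ 2 / 2 ^ i) ^ 2 / K := by
            have h8 : 1 ≤ (H ^ 2 / 2 ^ i) ^ 2 / K := by rwa [le_div_iff₀ hK0, one_mul]
            have h9 : 1 ≤ τ * ((H ^ 2 / 2 ^ i) ^ 2 / K) := by nlinarith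
            calc (1 : ℝ) + 2 * (2 * τ) * (H ^ 2 / 2 ^ i) ^ 2 / K
                ≤ τ * ((H ^ 2 / 2 ^ i) ^ 2 / K) + 2 * (2 * τ) * (H ^ 2 / 2 ^ i) ^ 2 / K := by gcongr
              _ = _ := by ring
          calc 2 ^ (i + 1) * (PQ U K (2 * τ) (H ^ 2 / 2 ^ i) : ℝ)
              ≤ 2 ^ (i + 1) * ((U.card : ℝ) ^ 2 * (5 * τ * (H ^ 2 / 2 ^ i) ^ 2 / K)) := by
                gcongr
                exact h6.trans (by gcongr)
            _ = 10 * τ * (a ^ 4) ^ 2 * H ^ 4 / K * (1 / 2) ^ i := by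
                rw [hn, one_div, inv_pow, pow_succ]
                field_simp
                ring
            _ ≤ _ := by linarith
        · have h6 := ih' (H ^ 2 / 2 ^ i) hH'' hk
          calc 2 ^ (i + 1) * (PQ U K (2 * τ) (H ^ 2 / 2 ^ i) : ℝ)
              ≤ 2 ^ (i + 1) * (W * lam * (H ^ 2 / 2 ^ i)) := by gcongr
            _ = 2 * W * lam * H ^ 2 := by
                rw [pow_succ]
                field_simp
            _ ≤ _ := by linarith
      have hsum : ∑ i ∈ range (N + 1), 2 ^ (i + 1) * (PQ U K (2 * τ) (H ^ 2 / 2 ^ i) : ℝ) ≤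
          20 * τ * (a ^ 4) ^ 2 * H ^ 4 / K + l * (2 * W * lam * H ^ 2) := by
        refine (Finset.sum_le_sum hterm).trans ?_
        rw [Finset.sum_add_distrib, ← Finset.mul_sum, Finset.sum_const, Finset.card_range,
          nsmul_eq_mul]
        have h6 : ∑ i ∈ range (N + 1), (1 / 2 : ℝ) ^ i ≤ 2 := sum_geometric_two_le _
        have h7 : 10 * τ * (a ^ 4) ^ 2 * H ^ 4 / K * ∑ i ∈ range (N + 1), (1 / 2 : ℝ) ^ i ≤
            10 * τ * (a ^ 4) ^ 2 * H ^ 4 / K * 2 := by gcongr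
        have h8 : ((N + 1 : ℕ) : ℝ) * (2 * W * lam * H ^ 2) ≤ l * (2 * W * lam * H ^ 2) := by
          push_cast
          gcongr
        have h9 : 10 * τ * (a ^ 4) ^ 2 * H ^ 4 / K * 2 = 20 * τ * (a ^ 4) ^ 2 * H ^ 4 / K := by ring
        linarith
      -- `n³ H² / K ≤ X²`
      have hXX : (a ^ 4) ^ 3 * H ^ 2 / K ≤ X ^ 2 := by
        rw [hX, hKb, div_pow, div_le_div_iff₀ (by positivity) (by positivity)]
        have : H ^ 2 ≤ (a * b) ^ 2 := by gcongr
        calc (a ^ 4) ^ 3 * H ^ 2 * b ^ 2 ≤ (a ^ 4) ^ 3 * (a * b) ^ 2 * b ^ 2 := by gcongr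
          _ = (a ^ 7) ^ 2 * b ^ 4 := by ring
      have hsq : (PQ U K τ H : ℝ) ^ 2 ≤ (W * L ^ ((1 / 2 : ℝ) ^ (j + 1)) * H) ^ 2 := by
        have e1 : (W * L ^ ((1 / 2 : ℝ) ^ (j + 1)) * H) ^ 2 = W ^ 2 * lam * H ^ 2 := by
          rw [← hlamsq]
          ring
        rw [e1]
        refine h5.trans ?_
        calc (U.card : ℝ) * (1 + 2 * τ) * D ^ 2 *
              ∑ i ∈ range (N + 1), 2 ^ (i + 1) * (PQ U K (2 * τ) (H ^ 2 / 2 ^ i) : ℝ)
            ≤ a ^ 4 * (3 * 2 ^ J) * D ^ 2 *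
              (20 * τ * (a ^ 4) ^ 2 * H ^ 4 / K + l * (2 * W * lam * H ^ 2)) := by
              rw [hn]
              gcongr
              linarith
          _ = H ^ 2 * (60 * τ * 2 ^ J * D ^ 2 * ((a ^ 4) ^ 3 * H ^ 2 / K) +
                6 * 2 ^ J * D ^ 2 * l * (a ^ 4 * W * lam)) := by ring
          _ ≤ H ^ 2 * (A * X ^ 2 + A * (a ^ 4 * W * lam)) := by
              have g1 : 60 * τ * 2 ^ J * D ^ 2 ≤ A := by
                rw [hA, h42]
                calc 60 * τ * 2 ^ J * D ^ 2 ≤ 60 * 2 ^ J * 2 ^ J * D ^ 2 := by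
                      gcongr
                      linarith
                  _ = 60 * (2 ^ J * 2 ^ J) * D ^ 2 * 1 := by ring
                  _ ≤ 120 * (2 ^ J * 2 ^ J) * D ^ 2 * l := by
                      gcongr
                      norm_num
              have g2 : 6 * 2 ^ J * D ^ 2 * l ≤ A := by
                rw [hA, h42]
                have : (6 : ℝ) * 2 ^ J ≤ 120 * (2 ^ J * 2 ^ J) := by nlinarith
                gcongr
              gcongr
          _ ≤ H ^ 2 * (W ^ 2 * lam) := by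
              apply mul_le_mul_of_nonneg_left _ (by positivity)
              -- `A X² ≤ W²/2`, `A n W λ ≤ W² λ / 2`
              have g1 : A * X ^ 2 ≤ W ^ 2 / 2 := by
                have k1 : (4 * A ^ 2 * X) ^ 2 ≤ W ^ 2 := by gcongr
                have k2 : (4 * A ^ 2 * X) ^ 2 = 16 * A ^ 4 * X ^ 2 := by ring
                have k3 : 2 * A ≤ 16 * A ^ 4 := by
                  have : A ≤ A ^ 4 := le_self_pow₀ hA2 (by norm_num)
                  linarith
                have k4 : 2 * A * X ^ 2 ≤ 16 * A ^ 4 * X ^ 2 := by gcongr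
                linarith
              have g2 : A * (a ^ 4 * W * lam) ≤ W ^ 2 * lam / 2 := by
                have k1 : 2 * A * a ^ 4 ≤ W := by
                  refine le_trans ?_ hWn
                  gcongr
                  nlinarith
                have k2 : 2 * A * a ^ 4 * (W * lam) ≤ W * (W * lam) := by gcongr
                calc A * (a ^ 4 * W * lam) = (2 * A * a ^ 4 * (W * lam)) / 2 := by ring
                  _ ≤ (W * (W * lam)) / 2 := by gcongr
                  _ = _ := by ring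
              have g3 : W ^ 2 ≤ W ^ 2 * lam := le_mul_of_one_le_right (by positivity) hlam1
              linarith
          _ = W ^ 2 * lam * H ^ 2 := by ring
      exact (sq_le_sq₀ (Nat.cast_nonneg _) (by positivity)).1 hsq

end Pool.Agent.Q38.KT
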