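import Pool.Agent.Q240.KT.Stm
import Pool.Agent.Q211.KS.Pow

set_option autoImplicit false

/-!
# Project KT (helper240), job RTP (helper38): the mean value theorem for a product of some factors
-/

namespace Pool.Agent.Q38.KT

open Finset Pool.Agent.H376R2.MR Pool.Agent.Q240.KS Pool.Agent.Q240.KT
open Pool.Agent.Q211.KS (sp0 mem_sp0 PF_eq cf_le DP_mul one_add_le_exp)

/-- products of factors as Dirichlet polynomials -/
theorem prod_DP (G : ℝ) (hG : 1 ≤ G) (z : ℕ) (d : Fin 10 → ℕ) (hd : ∀ i, 1 + (d i : ℝ) ≤ G)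
    (hdiv : ∀ n : ℕ, 1 ≤ n → Real.log n ≤ ∑ i, ((d i : ℝ) + 1) / 20 →
      (n.divisors.card : ℝ) ≤ G) (S : Finset (Fin 10)) :
    ∃ (s : Finset ℕ) (b : ℕ → ℂ), (∀ k : ℤ, ∏ i ∈ S, PF z (ty i) (d i) k = DP s b k) ∧
      (∀ n ∈ s, 1 ≤ n ∧ ∑ i ∈ S, ((d i : ℝ) - 1) / 20 ≤ Real.log n ∧
        Real.log n ≤ ∑ i ∈ S, ((d i : ℝ) + 1) / 20) ∧
      ∀ n ∈ s, ‖b n‖ ≤ G ^ (2 * S.card) / n := by
  classical
  induction S using Finset.induction_on with
  | empty =>
    refine ⟨{1}, fun _ => 1, fun k => ?_, fun n hn => ?_, fun n hn => ?_⟩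
    · simp [DP, ch]
    · rw [Finset.mem_singleton] at hn
      subst hn
      simp
    · rw [Finset.mem_singleton] at hn
      subst hn
      simp
  | insert j S hj ih =>
    obtain ⟨s, b, hb1, hb2, hb3⟩ := ih
    have hG0 : 0 < G := by linarith
    have hs0 : ∀ n ∈ sp0 (d j), 1 ≤ n := fun n hn => (mem_sp0 hn).1
    have hs : ∀ n ∈ s, 1 ≤ n := fun n hn => (hb2 n hn).1
    have hprop : ∀ n : ℕ, n ∈ (s ×ˢ sp0 (d j)).image (fun p => p.1 * p.2) → 1 ≤ n ∧
        ∑ i ∈ insert j S, ((d i : ℝ) - 1) / 20 ≤ Real.log n ∧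
        Real.log n ≤ ∑ i ∈ insert j S, ((d i : ℝ) + 1) / 20 := by
      intro n hn
      rw [Finset.mem_image] at hn
      obtain ⟨p, hp, rfl⟩ := hn
      rw [Finset.mem_product] at hp
      obtain ⟨a1, a2, a3⟩ := hb2 _ hp.1
      obtain ⟨c1, c2, c3⟩ := mem_sp0 hp.2
      have e1 : (p.1 : ℝ) ≠ 0 := by
        have : p.1 ≠ 0 := by omega
        exact_mod_cast this
      have e2 : (p.2 : ℝ) ≠ 0 := by
        have : p.2 ≠ 0 := by omega
        exact_mod_cast this
      rw [Finset.sum_insert hj, Finset.sum_insert hj, Nat.cast_mul, Real.log_mul e1 e2]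
      refine ⟨Nat.mul_pos a1 c1, ?_, ?_⟩ <;> linarith
    refine ⟨(s ×ˢ sp0 (d j)).image (fun p => p.1 * p.2),
      fun n => ∑ p ∈ (s ×ˢ sp0 (d j)).filter (fun p => p.1 * p.2 = n),
        b p.1 * ((cf z (ty j) (d j) p.2 : ℝ) : ℂ), fun k => ?_, hprop, ?_⟩
    · rw [Finset.prod_insert hj, mul_comm, hb1 k, PF_eq]
      exact DP_mul s (sp0 (d j)) b _ hs hs0 k
    · intro n hn
      obtain ⟨hn1, -, hn2⟩ := hprop n hn
      have hn0 : (0 : ℝ) < n := by exact_mod_cast hn1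
      have hcard : (((s ×ˢ sp0 (d j)).filter (fun p => p.1 * p.2 = n)).card : ℝ) ≤
          n.divisors.card := by
        have : ((s ×ˢ sp0 (d j)).filter (fun p => p.1 * p.2 = n)).card ≤ n.divisors.card := by
          refine Finset.card_le_card_of_injOn (fun p => p.1) ?_ ?_
          · intro p hp
            rw [Finset.mem_coe, Finset.mem_filter] at hp
            rw [Finset.mem_coe, Nat.mem_divisors]
            exact ⟨⟨p.2, hp.2.symm⟩, by omega⟩
          · intro p hp q hq hpq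
            rw [Finset.mem_coe, Finset.mem_filter, Finset.mem_product] at hp hq
            have hpq' : p.1 = q.1 := hpq
            refine Prod.ext hpq' ?_
            have h5 : p.1 * p.2 = p.1 * q.2 := by
              rw [hp.2, hpq', hq.2]
            exact Nat.eq_of_mul_eq_mul_left (hs _ hp.1.1) h5
        exact_mod_cast this
      have hlog : Real.log n ≤ ∑ i, ((d i : ℝ) + 1) / 20 := by
        refine hn2.trans ?_
        exact Finset.sum_le_sum_of_subset_of_nonneg (Finset.subset_univ _)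
          fun i _ _ => by positivity
      have hterm : ∀ p ∈ (s ×ˢ sp0 (d j)).filter (fun p => p.1 * p.2 = n),
          ‖b p.1 * ((cf z (ty j) (d j) p.2 : ℝ) : ℂ)‖ ≤ G ^ (2 * S.card) * G / n := by
        intro p hp
        rw [Finset.mem_filter, Finset.mem_product] at hp
        have e1 : (0 : ℝ) < p.1 := by exact_mod_cast hs _ hp.1.1
        have e2 : (0 : ℝ) < p.2 := by exact_mod_cast hs0 _ hp.1.2
        rw [norm_mul, Complex.norm_real, Real.norm_eq_abs]
        have h5 := hb3 _ hp.1.1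
        have h6 : |cf z (ty j) (d j) p.2| ≤ G / p.2 :=
          (cf_le hp.1.2).trans (div_le_div_of_nonneg_right (hd j) e2.le)
        calc ‖b p.1‖ * |cf z (ty j) (d j) p.2| ≤ (G ^ (2 * S.card) / p.1) * (G / p.2) :=
              mul_le_mul h5 h6 (abs_nonneg _) (by positivity)
          _ = G ^ (2 * S.card) * G / ((p.1 * p.2 : ℕ) : ℝ) := by
            push_cast
            field_simp
          _ = _ := by rw [hp.2]
      calc ‖∑ p ∈ (s ×ˢ sp0 (d j)).filter (fun p => p.1 * p.2 = n),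
            b p.1 * ((cf z (ty j) (d j) p.2 : ℝ) : ℂ)‖ ≤
          ∑ p ∈ (s ×ˢ sp0 (d j)).filter (fun p => p.1 * p.2 = n),
            ‖b p.1 * ((cf z (ty j) (d j) p.2 : ℝ) : ℂ)‖ := norm_sum_le _ _
        _ ≤ ∑ _p ∈ (s ×ˢ sp0 (d j)).filter (fun p => p.1 * p.2 = n),
            G ^ (2 * S.card) * G / n := Finset.sum_le_sum hterm
        _ = ((s ×ˢ sp0 (d j)).filter (fun p => p.1 * p.2 = n)).card *
            (G ^ (2 * S.card) * G / n) := by
            rw [Finset.sum_const, nsmul_eq_mul]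
        _ ≤ G * (G ^ (2 * S.card) * G / n) :=
            mul_le_mul_of_nonneg_right (hcard.trans (hdiv n hn1 hlog)) (by positivity)
        _ = G ^ (2 * (insert j S).card) / n := by
            rw [Finset.card_insert_of_notMem hj]
            ring

theorem rtp (hRT : S_RT) : S_RTP := by
  classical
  intro ε hε
  -- the constants
  obtain ⟨C₁, hC₁, h1⟩ := one_add_le_exp (show 0 < ε / 160 by positivity)
  obtain ⟨C₂, hC₂, h2⟩ := Pool.Agent.Helper112.divisor_bound (ε / 640) (by positivity)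
  obtain ⟨C₃, hC₃, h3⟩ := hRT (ε / 8) (by positivity)
  obtain ⟨C₄, hC₄, h4⟩ := one_add_le_exp (show 0 < ε / 4 by positivity)
  obtain ⟨C₅, hC₅a, hC₅b⟩ : ∃ C₅ : ℝ, 21 * C₁ ≤ C₅ ∧ C₂ ≤ C₅ :=
    ⟨max (21 * C₁) C₂, le_max_left _ _, le_max_right _ _⟩
  have hC₅ : 1 ≤ C₅ := by linarith
  refine ⟨C₃ * C₅ ^ 40 * (2 * C₄), ?_, ?_⟩
  · have k1 : 1 ≤ C₅ ^ 40 := one_le_pow₀ hC₅
    calc (1 : ℝ) = 1 * 1 * (1 * 1) := by ring
      _ ≤ C₃ * C₅ ^ 40 * (2 * C₄) := by
          gcongr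
          norm_num
  intro Y hY z d hd S K v U c hK hKY hU hsep hc
  have hK1 : (1 : ℝ) ≤ K := by exact_mod_cast hK
  have hK0 : (0 : ℝ) < K := by linarith
  -- the degrees
  unfold DY at hd
  rw [Finset.mem_filter, Fintype.mem_piFinset] at hd
  obtain ⟨hd1, hd2⟩ := hd
  have hdi : ∀ i, (d i : ℝ) ≤ 20 * (Y + 1) := by
    intro i
    have := hd1 i
    rw [Finset.mem_range, Nat.lt_succ_iff] at this
    exact (Nat.cast_le.2 this).trans (Nat.floor_le (by linarith))
  have hsum : (∑ i, (d i : ℝ)) / 20 ≤ Y + 1 := by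
    have := (abs_le.1 hd2).2
    linarith
  have hsumS : (∑ i ∈ S, (d i : ℝ)) / 20 ≤ Y + 1 := by
    refine le_trans ?_ hsum
    apply div_le_div_of_nonneg_right _ (by norm_num)
    exact Finset.sum_le_sum_of_subset_of_nonneg (Finset.subset_univ _)
      fun i _ _ => Nat.cast_nonneg _
  have hsumS0 : 0 ≤ (∑ i ∈ S, (d i : ℝ)) / 20 :=
    div_nonneg (Finset.sum_nonneg fun i _ => Nat.cast_nonneg _) (by norm_num)
  -- the bound `G`
  set G : ℝ := C₅ * Real.exp (ε / 160 * Y) with hG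
  have hexp1 : 1 ≤ Real.exp (ε / 160 * Y) := Real.one_le_exp (by positivity)
  have hG1 : 1 ≤ G := by
    rw [hG]
    nlinarith
  have hGd : ∀ i, 1 + (d i : ℝ) ≤ G := by
    intro i
    calc 1 + (d i : ℝ) ≤ 21 * (1 + Y) := by linarith [hdi i]
      _ ≤ 21 * (C₁ * Real.exp (ε / 160 * Y)) := by
          gcongr
          exact h1 Y (by linarith)
      _ = (21 * C₁) * Real.exp (ε / 160 * Y) := by ring
      _ ≤ G := by
          rw [hG]
          gcongr
  have hGdiv : ∀ n : ℕ, 1 ≤ n → Real.log n ≤ ∑ i, ((d i : ℝ) + 1) / 20 →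
      (n.divisors.card : ℝ) ≤ G := by
    intro n hn hlog
    have hn0 : (0 : ℝ) < n := by exact_mod_cast hn
    have e1 : ∑ i, ((d i : ℝ) + 1) / 20 = (∑ i, (d i : ℝ)) / 20 + 1 / 2 := by
      rw [← Finset.sum_div, Finset.sum_add_distrib]
      simp only [sum_const, card_univ, Fintype.card_fin, nsmul_eq_mul, Nat.cast_ofNat]
      ring
    rw [e1] at hlog
    calc (n.divisors.card : ℝ) ≤ C₂ * (n : ℝ) ^ (ε / 640) := h2 n hn
      _ ≤ C₂ * Real.exp (ε / 160 * Y) := by
          apply mul_le_mul_of_nonneg_left _ hC₂.le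
          rw [Real.rpow_def_of_pos hn0]
          apply Real.exp_le_exp.2
          calc Real.log n * (ε / 640) ≤ (Y + 2) * (ε / 640) := by
                apply mul_le_mul_of_nonneg_right _ (by positivity)
                linarith
            _ ≤ (4 * Y) * (ε / 640) := by
                apply mul_le_mul_of_nonneg_right _ (by positivity)
                linarith
            _ = ε / 160 * Y := by ring
      _ ≤ G := by
          rw [hG]
          gcongr
  obtain ⟨s, b, hb1, hb2, hb3⟩ := prod_DP G hG1 z d hGd hGdiv S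
  have hScard : (S.card : ℝ) ≤ 10 := by
    have : S.card ≤ 10 := by
      have := Finset.card_le_univ S
      simpa using this
    exact_mod_cast this
  have hS10 : 2 * S.card ≤ 20 := by
    have := Finset.card_le_univ S
    rw [Fintype.card_fin] at this
    omega
  set M : ℝ := Real.exp ((∑ i ∈ S, (d i : ℝ)) / 20) with hM
  have hM1 : 1 ≤ M := Real.one_le_exp hsumS0
  have hlogM : Real.log M = (∑ i ∈ S, (d i : ℝ)) / 20 := Real.log_exp _
  have hbs : ∀ m ∈ s, 1 ≤ m ∧ |Real.log m - Real.log M| ≤ 1 / 2 ∧ ‖b m‖ ≤ G ^ 20 / m := by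
    intro m hm
    obtain ⟨k1, k2, k3⟩ := hb2 m hm
    refine ⟨k1, ?_, ?_⟩
    · have e1 : ∑ i ∈ S, ((d i : ℝ) + 1) / 20 = (∑ i ∈ S, (d i : ℝ)) / 20 + S.card / 20 := by
        rw [← Finset.sum_div, Finset.sum_add_distrib]
        simp only [sum_const, nsmul_eq_mul, mul_one]
        ring
      have e2 : ∑ i ∈ S, ((d i : ℝ) - 1) / 20 = (∑ i ∈ S, (d i : ℝ)) / 20 - S.card / 20 := by
        rw [← Finset.sum_div, Finset.sum_sub_distrib]
        simp only [sum_const, nsmul_eq_mul, mul_one]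
        ring
      rw [e2] at k2
      rw [e1] at k3
      rw [hlogM, abs_le]
      constructor <;> linarith
    · refine (hb3 m hm).trans ?_
      apply div_le_div_of_nonneg_right _ (Nat.cast_nonneg _)
      exact pow_le_pow_right₀ hG1 hS10
  have hmain := h3 K v U c s b (G ^ 20) M hK hU hsep hc hM1 (by positivity) hbs
  simp only [hb1]
  refine hmain.trans ?_
  -- the three factors
  have q1 : (G ^ 20) ^ 2 = C₅ ^ 40 * Real.exp (ε / 4 * Y) := by
    rw [hG, ← pow_mul, mul_pow, ← Real.exp_nat_mul]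
    congr 2
    push_cast
    ring
  have q2 : 1 + Real.log M ≤ 2 * C₄ * Real.exp (ε / 4 * Y) := by
    rw [hlogM]
    calc 1 + (∑ i ∈ S, (d i : ℝ)) / 20 ≤ 2 * (1 + Y) := by linarith
      _ ≤ 2 * (C₄ * Real.exp (ε / 4 * Y)) := by
          gcongr
          exact h4 Y (by linarith)
      _ = _ := by ring
  have q3 : (K : ℝ) ^ (ε / 8) ≤ Real.exp (ε / 4 * Y) := by
    calc (K : ℝ) ^ (ε / 8) ≤ (Real.exp (2 * Y)) ^ (ε / 8) :=
          Real.rpow_le_rpow hK0.le hKY (by positivity)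
      _ = Real.exp (ε / 4 * Y) := by
          rw [← Real.exp_mul]
          congr 1
          ring
  have q4 : Real.exp (ε / 4 * Y) * Real.exp (ε / 4 * Y) * Real.exp (ε / 4 * Y) ≤
      Real.exp (ε * Y) := by
    rw [← Real.exp_add, ← Real.exp_add]
    apply Real.exp_le_exp.2
    have : 0 ≤ ε * Y := by positivity
    linarith
  have hMinv : Real.exp (-((∑ i ∈ S, (d i : ℝ)) / 20)) = M⁻¹ := by
    rw [hM, Real.exp_neg]
  rw [hMinv]
  set T : ℝ := (U.card : ℝ) ^ 2 + (K * U.card + (U.card : ℝ) ^ (7 / 4 : ℝ) *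
    (K : ℝ) ^ (3 / 4 : ℝ)) / M with hT
  have hT0 : 0 ≤ T := by
    have k1 : (0 : ℝ) ≤ U.card := Nat.cast_nonneg _
    have k2 : 0 ≤ (U.card : ℝ) ^ (7 / 4 : ℝ) * (K : ℝ) ^ (3 / 4 : ℝ) :=
      mul_nonneg (Real.rpow_nonneg k1 _) (Real.rpow_nonneg hK0.le _)
    have k3 : 0 ≤ (K : ℝ) * U.card := mul_nonneg hK0.le k1
    exact add_nonneg (sq_nonneg _) (div_nonneg (add_nonneg k3 k2) (by linarith))
  rw [← div_eq_mul_inv, ← hT]
  have q5 : (1 + Real.log M) * (K : ℝ) ^ (ε / 8) ≤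
      (2 * C₄ * Real.exp (ε / 4 * Y)) * Real.exp (ε / 4 * Y) :=
    mul_le_mul q2 q3 (Real.rpow_nonneg hK0.le _) (by positivity)
  calc C₃ * (G ^ 20) ^ 2 * (1 + Real.log M) * (K : ℝ) ^ (ε / 8) * T
      = C₃ * C₅ ^ 40 * Real.exp (ε / 4 * Y) * ((1 + Real.log M) * (K : ℝ) ^ (ε / 8)) * T := by
        rw [q1]
        ring
    _ ≤ C₃ * C₅ ^ 40 * Real.exp (ε / 4 * Y) *
        ((2 * C₄ * Real.exp (ε / 4 * Y)) * Real.exp (ε / 4 * Y)) * T :=
        mul_le_mul_of_nonneg_right (mul_le_mul_of_nonneg_left q5 (by positivity)) hT0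
    _ = C₃ * C₅ ^ 40 * (2 * C₄) *
        (Real.exp (ε / 4 * Y) * Real.exp (ε / 4 * Y) * Real.exp (ε / 4 * Y)) * T := by ring
    _ ≤ C₃ * C₅ ^ 40 * (2 * C₄) * Real.exp (ε * Y) * T :=
        mul_le_mul_of_nonneg_right (mul_le_mul_of_nonneg_left q4 (by positivity)) hT0

end Pool.Agent.Q38.KT
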